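import Pool.Agent.PSV.StmtsG
import Pool.Agent.PSV.StmtsS

/-! # Squad PSV, row SYE (helper32): the size of a tensor product -/

set_option autoImplicit false
set_option linter.unusedSectionVars false

namespace Pool.Agent.PSV.H32

open Matrix Polynomial Pool.Agent.MT100 Pool.Agent.MT100G Pool.Agent.MT100D

theorem mono {B B' : ℕ} {f : PowerSeries ℚ} (h : B ≤ B') (hf : GTC B f) : GTC B' f := by
  intro k
  obtain ⟨h1, D, hD, hD', hDz⟩ := hf k
  exact ⟨h1.trans (pow_le_pow_left₀ (Nat.cast_nonneg _) (by exact_mod_cast h) _), D, hD,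
    hD'.trans (Nat.pow_le_pow_left h _), hDz⟩

/-! ### Polynomials -/

theorem coeff_le_nrm (p : ℤ[X]) (k : ℕ) : |((p.coeff k : ℤ) : ℚ)| ≤ nrm (zq p) := by
  have hc : (zq p).coeff k = ((p.coeff k : ℤ) : ℚ) := by
    unfold zq
    rw [Polynomial.coeff_map]
    rfl
  rw [← hc]
  by_cases hk : (zq p).coeff k = 0
  · rw [hk, abs_zero]
    exact Helper39_MT.nrm_nonneg _
  · exact Finset.single_le_sum (f := fun i => |(zq p).coeff i|) (fun i _ => abs_nonneg _)
      (Polynomial.mem_support_iff.2 hk)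

/-- a polynomial of small norm is small -/
theorem pb_of_nrm {n B : ℕ} {p : ℤ[X]} (h : p.natDegree ≤ n) (hB : nrm (zq p) ≤ (B : ℚ)) :
    PB n B p := by
  refine ⟨h, fun k => ?_⟩
  have h1 := (coeff_le_nrm p k).trans hB
  rw [← Int.cast_abs] at h1
  exact_mod_cast h1

theorem nrm_of_pb {n B : ℕ} {p : ℤ[X]} (h : PB n B p) : nrm (zq p) ≤ ((n + 1) * B : ℕ) := by
  have := MT100.H76.nrm_zq_le p n (B : ℤ) h.1 h.2
  push_cast at this ⊢
  exact this

theorem nrm_zq_mul (p q : ℤ[X]) : nrm (zq (p * q)) ≤ nrm (zq p) * nrm (zq q) := by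
  unfold zq
  rw [Polynomial.map_mul]
  exact Helper39_MT.nrm_mul _ _

theorem nrm_zq_one : nrm (zq 1) = 1 := by
  unfold zq
  rw [Polynomial.map_one, Helper39_MT.nrm_eq 1 0 (by simp)]
  simp

theorem nrm_zq_zero : nrm (zq 0) = 0 := by
  unfold zq
  rw [Polynomial.map_zero]
  unfold nrm
  simp

theorem nrm_zq_sum {σ : Type} (S : Finset σ) (f : σ → ℤ[X]) :
    nrm (zq (∑ s ∈ S, f s)) ≤ ∑ s ∈ S, nrm (zq (f s)) := by
  unfold zq
  rw [Polynomial.map_sum]
  exact Helper39_MT.nrm_sum _ _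

theorem nrm_zq_prod {σ : Type} (S : Finset σ) (f : σ → ℤ[X]) {W : ℚ} (hW : 0 ≤ W)
    (h : ∀ s ∈ S, nrm (zq (f s)) ≤ W) : nrm (zq (∏ s ∈ S, f s)) ≤ W ^ S.card := by
  classical
  induction S using Finset.induction_on with
  | empty =>
    rw [Finset.prod_empty, nrm_zq_one, Finset.card_empty, pow_zero]
  | insert a S ha ih =>
    rw [Finset.prod_insert ha, Finset.card_insert_of_notMem ha, pow_succ, mul_comm (W ^ _)]
    refine (nrm_zq_mul _ _).trans ?_
    exact mul_le_mul (h a (Finset.mem_insert_self _ _))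
      (ih fun s hs => h s (Finset.mem_insert_of_mem hs)) (Helper39_MT.nrm_nonneg _) hW

theorem deg_prod {σ : Type} (S : Finset σ) (f : σ → ℤ[X]) {n : ℕ}
    (h : ∀ s ∈ S, (f s).natDegree ≤ n) : (∏ s ∈ S, f s).natDegree ≤ S.card * n := by
  refine (Polynomial.natDegree_prod_le _ _).trans ?_
  refine (Finset.sum_le_card_nsmul _ _ n h).trans ?_
  rw [smul_eq_mul]

/-! ### Rational numbers -/

theorem den_sum {σ : Type} (S : Finset σ) (x : σ → ℚ) :
    (∑ s ∈ S, x s).den ∣ ∏ s ∈ S, (x s).den := by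
  classical
  induction S using Finset.induction_on with
  | empty => simp
  | insert a S ha ih =>
    rw [Finset.sum_insert ha, Finset.prod_insert ha]
    exact (Rat.add_den_dvd _ _).trans (Nat.mul_dvd_mul_left _ ih)

theorem rb_sum {σ : Type} [Fintype σ] (x : σ → ℚ) {n B : ℕ} (hn : Fintype.card σ ≤ n)
    (hB : 2 ≤ B) (h : ∀ s, RB B (x s)) : RB (B ^ (n + 1)) (∑ s, x s) := by
  have hB1 : 1 ≤ B := by omega
  constructor
  · refine (Nat.le_of_dvd (Finset.prod_pos fun s _ => (x s).pos) (den_sum _ _)).trans ?_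
    refine (Finset.prod_le_pow_card _ _ B fun s _ => (h s).1).trans ?_
    rw [Finset.card_univ]
    exact Nat.pow_le_pow_right hB1 (by omega)
  · refine (Finset.abs_sum_le_sum_abs _ _).trans ?_
    refine (Finset.sum_le_card_nsmul _ _ (B : ℚ) fun s _ => (h s).2).trans ?_
    rw [Finset.card_univ, nsmul_eq_mul]
    have h1 : Fintype.card σ ≤ B ^ n := by
      calc Fintype.card σ ≤ n := hn
        _ ≤ 2 ^ n := Nat.lt_two_pow_self.le
        _ ≤ B ^ n := Nat.pow_le_pow_left hB n
    have h2 : Fintype.card σ * B ≤ B ^ (n + 1) := by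
      rw [pow_succ]
      exact Nat.mul_le_mul_right _ h1
    exact_mod_cast h2

/-! ### Tensor products -/

section tens

variable {ι m : Type} [Fintype ι] [Fintype m] [DecidableEq ι] [DecidableEq m]
variable {R : Type} [CommRing R]

theorem prod_one_zo (S : Finset ι) (β α : ι → m) :
    ∏ t ∈ S, (1 : Matrix m m R) (β t) (α t) = 0 ∨
      ∏ t ∈ S, (1 : Matrix m m R) (β t) (α t) = 1 := by
  by_cases h : ∀ t ∈ S, β t = α t
  · right
    refine Finset.prod_eq_one fun t ht => ?_
    rw [h t ht]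
    exact Matrix.one_apply_eq _
  · left
    push Not at h
    obtain ⟨t, ht, hne⟩ := h
    exact Finset.prod_eq_zero ht (Matrix.one_apply_ne hne)

theorem card_fun {n : ℕ} (hι : Fintype.card ι ≤ n) (hm : Nonempty ι → Fintype.card m ≤ n) :
    Fintype.card (ι → m) ≤ n ^ n + 1 := by
  rw [Fintype.card_fun]
  rcases isEmpty_or_nonempty ι with h | h
  · rw [Fintype.card_eq_zero (α := ι), pow_zero]
    omega
  · have h1 : 1 ≤ n := (Fintype.card_pos.trans_le hι : 0 < n)
    have h2 := hm h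
    calc Fintype.card m ^ Fintype.card ι ≤ n ^ Fintype.card ι := Nat.pow_le_pow_left h2 _
      _ ≤ n ^ n := Nat.pow_le_pow_right h1 hι
      _ ≤ n ^ n + 1 := Nat.le_succ _

end tens

/-- SYE -/
theorem sye (gtp : GtpStmt) : SyeStmt := by
  intro n
  obtain ⟨a, ha⟩ := gtp.2.1 n
  obtain ⟨b, hb⟩ : ∃ b : ℕ, b = a + (n + 1) * (n + 1) := ⟨_, rfl⟩
  refine ⟨n * n + n ^ n + 1, b, ?_⟩
  intro ι m _ _ _ _ H K N δ q Bm B hι hB h
  have hB1 : 1 ≤ B := by omega
  -- the constants
  have hn1 : 1 ≤ (n + 1) * (n + 1) := Nat.mul_pos (Nat.succ_pos _) (Nat.succ_pos _)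
  have hb1 : 1 ≤ b := by omega
  have hab : B ^ a ≤ B ^ b := Nat.pow_le_pow_right hB1 (by omega)
  have hnb : B ^ (n + 1) ≤ B ^ b := Nat.pow_le_pow_right hB1 (by
    have : (n + 1) * 1 ≤ (n + 1) * (n + 1) := Nat.mul_le_mul_left _ (by omega)
    omega)
  have hnB : n ≤ (n + 1) * B := by
    calc n ≤ (n + 1) * 1 := by omega
      _ ≤ (n + 1) * B := Nat.mul_le_mul_left _ hB1
  have hW1 : 1 ≤ (n + 1) * B := Nat.mul_pos (Nat.succ_pos _) (by omega)
  have hWB : (n + 1) * B ≤ B ^ (n + 1) := by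
    have h1 : n + 1 ≤ B ^ n := by
      calc n + 1 ≤ 2 ^ n := Nat.lt_two_pow_self
        _ ≤ B ^ n := Nat.pow_le_pow_left hB n
    rw [pow_succ]
    exact Nat.mul_le_mul_right B h1
  have hWb : ((n + 1) * B) ^ (n + 1) ≤ B ^ b := by
    calc ((n + 1) * B) ^ (n + 1) ≤ (B ^ (n + 1)) ^ (n + 1) := Nat.pow_le_pow_left hWB _
      _ = B ^ ((n + 1) * (n + 1)) := (pow_mul _ _ _).symm
      _ ≤ B ^ b := Nat.pow_le_pow_right hB1 (by omega)
  have hWbn : ((n + 1) * B) ^ n ≤ B ^ b :=
    (Nat.pow_le_pow_right hW1 (Nat.le_succ n)).trans hWb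
  have hq : ∀ s, nrm (zq (q s)) ≤ (((n + 1) * B : ℕ) : ℚ) := fun s => nrm_of_pb (h s).hq
  have hM : ∀ s i j, nrm (zq (Bm s i j)) ≤ (((n + 1) * B : ℕ) : ℚ) := fun s i j =>
    nrm_of_pb ((h s).hM i j)
  have hW0 : (0 : ℚ) ≤ (((n + 1) * B : ℕ) : ℚ) := Nat.cast_nonneg _
  have hW1q : (1 : ℚ) ≤ (((n + 1) * B : ℕ) : ℚ) := by exact_mod_cast hW1
  refine ⟨MT100D.H83.gsysw_kr fun s => (h s).sys, ?_, ?_, ?_, ?_, ?_, ?_, ?_, ?_⟩
  · calc 2 ≤ B := hB
      _ = B ^ 1 := (pow_one B).symm
      _ ≤ B ^ b := Nat.pow_le_pow_right hB1 hb1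
  · refine (card_fun hι fun ⟨s⟩ => (h s).card).trans ?_
    omega
  · -- the polynomial `q`
    refine pb_of_nrm ?_ ?_
    · refine (deg_prod Finset.univ q fun s _ => (h s).hq.1).trans ?_
      rw [Finset.card_univ]
      have := Nat.mul_le_mul_right n hι
      omega
    · refine (nrm_zq_prod Finset.univ q hW0 fun s _ => hq s).trans ?_
      rw [Finset.card_univ]
      refine (pow_le_pow_right₀ hW1q hι).trans ?_
      exact_mod_cast hWbn
  · -- the matrix
    intro β α
    rw [MT100D.H83.kd_one_apply]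
    refine pb_of_nrm ?_ ?_
    · refine (Polynomial.natDegree_sum_le_of_forall_le (n := n * n) _ _ fun s _ => ?_).trans
        (by omega)
      rcases prod_one_zo (R := ℤ[X]) (Finset.univ.erase s) β α with h0 | h0
      · rw [h0, mul_zero, Polynomial.natDegree_zero]
        exact Nat.zero_le _
      · rw [h0, mul_one, Matrix.smul_apply, smul_eq_mul]
        refine Polynomial.natDegree_mul_le.trans ?_
        have h1 := deg_prod (Finset.univ.erase s) q fun t _ => (h t).hq.1
        have h2 := ((h s).hM (β s) (α s)).1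
        rw [Finset.card_erase_of_mem (Finset.mem_univ s), Finset.card_univ] at h1
        have h3 : 1 ≤ Fintype.card ι := Fintype.card_pos_iff.2 ⟨s⟩
        have h4 : (Fintype.card ι - 1) * n + n ≤ n * n := by
          have h5 : (Fintype.card ι - 1) * n + n = (Fintype.card ι - 1 + 1) * n := by ring
          rw [h5, Nat.sub_add_cancel h3]
          exact Nat.mul_le_mul_right n hι
        omega
    · refine (nrm_zq_sum _ _).trans ?_
      have h1 : ∀ s ∈ (Finset.univ : Finset ι), nrm (zq (((∏ t ∈ Finset.univ.erase s, q t) •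
          Bm s) (β s) (α s) * ∏ t ∈ Finset.univ.erase s, (1 : Matrix m m ℤ[X]) (β t) (α t))) ≤
          (((n + 1) * B : ℕ) : ℚ) ^ n := by
        intro s _
        rcases prod_one_zo (R := ℤ[X]) (Finset.univ.erase s) β α with h0 | h0
        · rw [h0, mul_zero, nrm_zq_zero]
          positivity
        · rw [h0, mul_one, Matrix.smul_apply, smul_eq_mul]
          refine (nrm_zq_mul _ _).trans ?_
          have h1 := nrm_zq_prod (Finset.univ.erase s) q hW0 fun t _ => hq t
          rw [Finset.card_erase_of_mem (Finset.mem_univ s), Finset.card_univ] at h1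
          have h3 : 1 ≤ Fintype.card ι := Fintype.card_pos_iff.2 ⟨s⟩
          calc nrm (zq (∏ t ∈ Finset.univ.erase s, q t)) * nrm (zq (Bm s (β s) (α s)))
              ≤ (((n + 1) * B : ℕ) : ℚ) ^ (Fintype.card ι - 1) * (((n + 1) * B : ℕ) : ℚ) :=
                mul_le_mul h1 (hM s _ _) (Helper39_MT.nrm_nonneg _) (by positivity)
            _ = (((n + 1) * B : ℕ) : ℚ) ^ (Fintype.card ι) := by
                rw [← pow_succ, Nat.sub_add_cancel h3]
            _ ≤ (((n + 1) * B : ℕ) : ℚ) ^ n := pow_le_pow_right₀ hW1q hι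
      refine (Finset.sum_le_card_nsmul _ _ _ h1).trans ?_
      rw [Finset.card_univ, nsmul_eq_mul]
      have h2 : Fintype.card ι * ((n + 1) * B) ^ n ≤ B ^ b := by
        refine le_trans ?_ hWb
        rw [pow_succ, mul_comm (((n + 1) * B) ^ n)]
        exact Nat.mul_le_mul_right _ (hι.trans hnB)
      exact_mod_cast h2
  · -- the nilpotent part
    intro β α
    rw [MT100D.H83.kd_one_apply]
    refine (Finset.abs_sum_le_sum_abs _ _).trans ?_
    have h1 : ∀ s ∈ (Finset.univ : Finset ι), |N s (β s) (α s) *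
        ∏ t ∈ Finset.univ.erase s, (1 : Matrix m m ℤ) (β t) (α t)| ≤ (B : ℤ) := by
      intro s _
      rcases prod_one_zo (R := ℤ) (Finset.univ.erase s) β α with h0 | h0
      · rw [h0, mul_zero, abs_zero]
        positivity
      · rw [h0, mul_one]
        exact (h s).hN _ _
    refine (Finset.sum_le_card_nsmul _ _ _ h1).trans ?_
    rw [Finset.card_univ, nsmul_eq_mul]
    have h2 : Fintype.card ι * B ≤ B ^ b := by
      refine le_trans ?_ (hWB.trans hnb)
      exact Nat.mul_le_mul_right _ (by omega)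
    exact_mod_cast h2
  · intro β
    have h1 := rb_sum (fun s => δ s (β s)) hι hB fun s => (h s).hδ _
    exact ⟨h1.1.trans hnb, h1.2.trans (by exact_mod_cast hnb)⟩
  · intro β α
    have h1 := (ha ι B (fun s => H s (β s) (α s)) hB hι fun s => (h s).gH _ _).2
    exact mono hab h1
  · intro β α
    have h1 := (ha ι B (fun s => K s (β s) (α s)) hB hι fun s => (h s).gK _ _).2
    exact mono hab h1

end Pool.Agent.PSV.H32
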